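import Pool.Agent.helper7.DF.Spec
import Pool.Agent.helper90.FI.VGI

/-!
# Project DF, row VAU (helper51): Vaughan's identity for the exponential sum over von Mangoldt
-/

set_option autoImplicit false

open Finset

namespace Pool.Agent.DFO

open Pool.Agent.LDH (ee)
open Pool.Agent.helper85.BVP (tau)

private theorem vau_ee (x : ℝ) : ‖ee x‖ = 1 := by
  unfold Pool.Agent.LDH.ee
  rw [Complex.norm_exp_ofReal_mul_I]

private theorem vau_mu (d : ℕ) : |(ArithmeticFunction.moebius d : ℝ)| ≤ 1 := by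
  have h := ArithmeticFunction.abs_moebius_le_one (n := d)
  have h2 : ((|ArithmeticFunction.moebius d| : ℤ) : ℝ) ≤ ((1 : ℤ) : ℝ) := by exact_mod_cast h
  push_cast at h2
  exact h2

private theorem vau_cc (U V q : ℕ) : |Pool.Agent.FI.cc U V q| ≤ Real.log q := by
  unfold Pool.Agent.FI.cc
  refine (abs_sum_le_sum_abs _ _).trans ?_
  rw [← ArithmeticFunction.vonMangoldt_sum]
  refine (sum_le_sum (g := fun m => ArithmeticFunction.vonMangoldt m) fun m _ => ?_).trans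
    (sum_le_sum_of_subset_of_nonneg (filter_subset _ _) fun m _ _ => ArithmeticFunction.vonMangoldt_nonneg)
  rw [abs_mul, abs_of_nonneg ArithmeticFunction.vonMangoldt_nonneg]
  exact mul_le_of_le_one_right ArithmeticFunction.vonMangoldt_nonneg (vau_mu _)

private theorem vau_al (V l : ℕ) : |Pool.Agent.FI.al V l| ≤ tau l := by
  unfold Pool.Agent.FI.al
  refine (abs_sum_le_sum_abs _ _).trans ?_
  refine (sum_le_sum fun d _ => vau_mu d).trans ?_
  rw [sum_const, nsmul_eq_mul, mul_one]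
  unfold Pool.Agent.helper85.BVP.tau
  exact_mod_cast card_filter_le _ _

private theorem vau_al0 (V l : ℕ) (h : l ≤ V) : Pool.Agent.FI.al V l = 0 := by
  unfold Pool.Agent.FI.al
  refine sum_eq_zero fun d hd => ?_
  rw [mem_filter] at hd
  have := Nat.divisor_le hd.1
  omega

private theorem vau_swap (g : ℕ → ℕ → ℂ) (a b : ℕ) :
    ∑ n ∈ Ioc a b, ∑ d ∈ n.divisors, g d (n / d) = ∑ d ∈ Ioc 0 b, ∑ l ∈ Ioc (a / d) (b / d), g d l := by
  rw [sum_sigma', sum_sigma']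
  refine sum_bij' (fun z _ => ⟨z.2, z.1 / z.2⟩) (fun z _ => ⟨z.1 * z.2, z.1⟩) ?_ ?_ ?_ ?_ ?_
  · rintro ⟨n, d⟩ h
    simp only [mem_sigma, mem_Ioc, Nat.mem_divisors] at h ⊢
    obtain ⟨⟨h1, h2⟩, h3, h4⟩ := h
    have hd : 0 < d := Nat.pos_of_dvd_of_pos h3 (by omega)
    refine ⟨⟨hd, (Nat.le_of_dvd (by omega) h3).trans h2⟩, ?_, Nat.div_le_div_right h2⟩
    rw [Nat.div_lt_iff_lt_mul hd, Nat.div_mul_cancel h3]
    exact h1
  · rintro ⟨d, l⟩ h
    simp only [mem_sigma, mem_Ioc, Nat.mem_divisors] at h ⊢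
    obtain ⟨⟨h1, h2⟩, h3, h4⟩ := h
    have h5 := (Nat.div_lt_iff_lt_mul h1).1 h3
    have h6 := (Nat.le_div_iff_mul_le h1).1 h4
    rw [mul_comm d l]
    exact ⟨⟨h5, h6⟩, dvd_mul_left d l, by omega⟩
  · rintro ⟨n, d⟩ h
    simp only [mem_sigma, mem_Ioc, Nat.mem_divisors] at h
    obtain ⟨⟨h1, h2⟩, h3, h4⟩ := h
    simp only [Nat.mul_div_cancel' h3]
  · rintro ⟨d, l⟩ h
    simp only [mem_sigma, mem_Ioc] at h
    obtain ⟨⟨h1, h2⟩, h3, h4⟩ := h
    simp only [Nat.mul_div_cancel_left l h1]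
  · rintro ⟨n, d⟩ h
    rfl

private noncomputable def vau_g1 (V : ℕ) (x : ℝ) (d l : ℕ) : ℂ :=
  if d ≤ V then ((ArithmeticFunction.moebius d : ℝ) : ℂ) * ((Real.log (l : ℝ) : ℂ) * ee (x / (d * l))) else 0

private noncomputable def vau_g2 (V : ℕ) (x : ℝ) (d l : ℕ) : ℂ := (Pool.Agent.FI.cc V V d : ℂ) * ee (x / (d * l))

private noncomputable def vau_g3 (V : ℕ) (x : ℝ) (d l : ℕ) : ℂ :=
  if V < d then (ArithmeticFunction.vonMangoldt d : ℂ) * ((Pool.Agent.FI.al V l : ℂ) * ee (x / (d * l))) else 0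

private theorem vau_dec (V n : ℕ) (x : ℝ) (hV : 1 ≤ V) (hn : V < n) :
    (ArithmeticFunction.vonMangoldt n : ℂ) * ee (x / n) =
      ∑ d ∈ n.divisors, vau_g1 V x d (n / d) - ∑ d ∈ n.divisors, vau_g2 V x d (n / d)
      + ∑ d ∈ n.divisors, vau_g3 V x d (n / d) := by
  have h := (Pool.Agent.FI.VGI V V n hV hV hn).1
  have key : ∀ d ∈ n.divisors, (d : ℝ) * ((n / d : ℕ) : ℝ) = n := by
    intro d hd
    exact_mod_cast Nat.mul_div_cancel' (Nat.dvd_of_mem_divisors hd)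
  have h1 : ∑ d ∈ n.divisors, vau_g1 V x d (n / d) =
      ((∑ d ∈ n.divisors with d ≤ V, (ArithmeticFunction.moebius d : ℝ) * Real.log (n / d : ℝ) : ℝ) : ℂ) * ee (x / n) := by
    rw [sum_filter, Complex.ofReal_sum, sum_mul]
    refine sum_congr rfl fun d hd => ?_
    unfold vau_g1
    rw [key d hd]
    by_cases hdV : d ≤ V
    · have hd0 : (d : ℝ) ≠ 0 := by
        have := Nat.pos_of_mem_divisors hd
        exact_mod_cast this.ne'
      rw [if_pos hdV, if_pos hdV, Nat.cast_div (Nat.dvd_of_mem_divisors hd) hd0, Complex.ofReal_mul, mul_assoc]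
    · rw [if_neg hdV, if_neg hdV, Complex.ofReal_zero, zero_mul]
  have h2 : ∑ d ∈ n.divisors, vau_g2 V x d (n / d) =
      ((∑ d ∈ n.divisors, Pool.Agent.FI.cc V V d : ℝ) : ℂ) * ee (x / n) := by
    rw [Complex.ofReal_sum, sum_mul]
    refine sum_congr rfl fun d hd => ?_
    unfold vau_g2
    rw [key d hd]
  have h3 : ∑ d ∈ n.divisors, vau_g3 V x d (n / d) =
      ((∑ d ∈ n.divisors with V < d, ArithmeticFunction.vonMangoldt d * Pool.Agent.FI.al V (n / d) : ℝ) : ℂ) * ee (x / n) := by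
    rw [sum_filter, Complex.ofReal_sum, sum_mul]
    refine sum_congr rfl fun d hd => ?_
    unfold vau_g3
    rw [key d hd]
    by_cases hdV : V < d
    · rw [if_pos hdV, if_pos hdV, Complex.ofReal_mul, mul_assoc]
    · rw [if_neg hdV, if_neg hdV, Complex.ofReal_zero, zero_mul]
  rw [h1, h2, h3, ← sub_mul, ← add_mul, ← Complex.ofReal_sub, ← Complex.ofReal_add, ← h]

private theorem vau_harm (G : ℕ → ℂ) (b : ℕ) (L W : ℝ) (hW : 0 ≤ W) (hbk : Real.log b ≤ L)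
    (h : ∀ d ∈ Ioc 0 b, ‖G d‖ ≤ W * (1 / (d : ℝ))) : ‖∑ d ∈ Ioc 0 b, G d‖ ≤ W * (1 + L) := by
  refine (norm_sum_le _ _).trans ((sum_le_sum h).trans ?_)
  rw [← mul_sum]
  exact mul_le_mul_of_nonneg_left ((Pool.Agent.helper85.BVP.harm_le b).trans (by linarith)) hW

private theorem vau_blocks (F : ℕ → ℂ) (U b I : ℕ) (P : ℝ) (hb : b ≤ U * 2 ^ I) (hF : ∀ m, b < m → F m = 0)
    (h : ∀ i < I, ‖∑ m ∈ Ioc (U * 2 ^ i) (2 * (U * 2 ^ i)), F m‖ ≤ P) :
    ‖∑ m ∈ Ioc 0 b, (if U < m then F m else 0)‖ ≤ I * P := by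
  have h1 : ∀ J : ℕ, ∑ m ∈ Ioc U (U * 2 ^ J), F m = ∑ i ∈ range J, ∑ m ∈ Ioc (U * 2 ^ i) (2 * (U * 2 ^ i)), F m := by
    intro J
    induction J with
    | zero => simp
    | succ J ih =>
      have e1 : 2 * (U * 2 ^ J) = U * 2 ^ (J + 1) := by ring
      rw [sum_range_succ, ← ih, e1]
      refine (sum_Ioc_consecutive F (Nat.le_mul_of_pos_right U (by positivity)) ?_).symm
      exact Nat.mul_le_mul_left U (Nat.pow_le_pow_right (by norm_num) (by omega))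
  have h2 : ∑ m ∈ Ioc 0 b, (if U < m then F m else 0) = ∑ m ∈ Ioc U (U * 2 ^ I), F m := by
    rw [← sum_filter]
    refine sum_subset_zero_on_sdiff (fun m hm => ?_) (fun m hm => ?_) (fun m _ => rfl)
    · rw [mem_filter, mem_Ioc] at hm
      rw [mem_Ioc]
      exact ⟨hm.2, hm.1.2.trans hb⟩
    · rw [mem_sdiff, mem_filter, mem_Ioc, mem_Ioc] at hm
      apply hF
      by_contra hc
      exact hm.2 ⟨⟨by omega, by omega⟩, hm.1.1⟩
  rw [h2, h1 I]
  refine (norm_sum_le _ _).trans ((sum_le_sum (fun i hi => h i (mem_range.1 hi))).trans ?_)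
  rw [sum_const, card_range, nsmul_eq_mul]

private theorem vau_log (hLGA : LGA_stmt) (d a b : ℕ) (x T K : ℝ) (hd : 1 ≤ d) (hab : a ≤ b) (hT : 0 ≤ T)
    (h : ∀ b' : ℕ, a ≤ b' → b' ≤ b → ‖∑ l ∈ Ioc (a / d) (b' / d), ee (x / (d * l))‖ ≤ T)
    (hK : Real.log ((b / d : ℕ) : ℝ) ≤ K) :
    ‖∑ l ∈ Ioc (a / d) (b / d), (Real.log (l : ℝ) : ℂ) * ee (x / (d * l))‖ ≤ 2 * T * K := by
  refine (hLGA (fun l => ee (x / (d * l))) (a / d) (b / d) T (Nat.div_le_div_right hab) ?_).trans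
    (mul_le_mul_of_nonneg_left hK (by linarith))
  intro c hc1 hc2
  rcases hc1.eq_or_lt with hc | hc
  · rw [← hc, Ioc_self, sum_empty, norm_zero]
    exact hT
  · have h5 := (Nat.div_lt_iff_lt_mul (by omega : 0 < d)).1 hc
    have h6 := (Nat.le_div_iff_mul_le (by omega : 0 < d)).1 hc2
    have h7 := h (c * d) h5.le h6
    rw [Nat.mul_div_cancel c (by omega : 0 < d)] at h7
    exact h7

private theorem vau_I (k : ℕ) (hk : 1 ≤ k) : ((Nat.log 2 k + 1 : ℕ) : ℝ) ≤ 2 * (1 + Real.log k) := by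
  have h1 : 2 ^ Nat.log 2 k ≤ k := Nat.pow_log_le_self 2 (by omega)
  have h2 : (2 : ℝ) ^ Nat.log 2 k ≤ k := by exact_mod_cast h1
  have h3 : Real.log ((2 : ℝ) ^ Nat.log 2 k) ≤ Real.log k := Real.log_le_log (by positivity) h2
  rw [Real.log_pow] at h3
  have h4 : (0.5 : ℝ) ≤ Real.log 2 := by
    have := Real.log_two_gt_d9
    linarith
  have h5 : (0 : ℝ) ≤ Nat.log 2 k := Nat.cast_nonneg _
  push_cast
  nlinarith

private theorem vau_big (hLGA : LGA_stmt) (k a b : ℕ) (x E1 E2 C1 C2 : ℝ) (B2 : ℕ) (hk : 256 ≤ k) (hab : a ≤ b)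
    (hbk : b ≤ k) (hka : k ≤ 2 * a) (hE1 : 0 ≤ E1) (hC1 : 1 ≤ C1) (hC2 : 1 ≤ C2) (hE2 : 0 ≤ E2)
    (hT : ∀ d b' : ℕ, 1 ≤ d → (d : ℝ) ≤ (k : ℝ) ^ (3 / 4 : ℝ) → a ≤ b' → b' ≤ b →
      ‖∑ l ∈ Ioc (a / d) (b' / d), ee (x / (d * l))‖ ≤ C1 * (k / d) * E1)
    (hII : ∀ (M : ℕ) (α β : ℕ → ℝ), (k : ℝ) ^ (1 / 4 : ℝ) ≤ M → (M : ℝ) ≤ (k : ℝ) ^ (3 / 4 : ℝ) →
      (∀ m ∈ Ioc M (2 * M), |α m| ≤ 2 * Real.log k) → (∀ l, |β l| ≤ tau l) →
      ‖∑ m ∈ Ioc M (2 * M), (α m : ℂ) * ∑ l ∈ Ioc (a / m) (b / m), (β l : ℂ) * ee (x / (m * l))‖ ≤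
        C2 * k * (1 + Real.log k) ^ B2 * E2) :
    ‖∑ m ∈ Ioc a b, (ArithmeticFunction.vonMangoldt m : ℂ) * ee (x / m)‖ ≤
      (3 * C1 * k * E1 * Real.log k) * (1 + Real.log k) +
        2 * (1 + Real.log k) * (C2 * k * (1 + Real.log k) ^ B2 * E2) := by
  have hk0 : (0 : ℝ) ≤ k := Nat.cast_nonneg _
  have hk256 : (256 : ℝ) ≤ k := by exact_mod_cast hk
  obtain ⟨t, ht⟩ : ∃ t : ℝ, t = (k : ℝ) ^ (1 / 4 : ℝ) := ⟨_, rfl⟩
  have ht3 : (k : ℝ) ^ (3 / 4 : ℝ) = t ^ 3 := by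
    rw [ht, ← Real.rpow_natCast, ← Real.rpow_mul hk0]; norm_num
  have ht4 : (k : ℝ) = t ^ 4 := by
    rw [ht, ← Real.rpow_natCast, ← Real.rpow_mul hk0]; norm_num
  have htn : 0 ≤ t := by rw [ht]; exact Real.rpow_nonneg hk0 _
  have ht0 : 4 ≤ t := by
    by_contra hc
    push Not at hc
    have h1 : t ^ 4 < 4 ^ 4 := pow_lt_pow_left₀ hc htn (by norm_num)
    rw [← ht4] at h1
    norm_num at h1
    linarith
  have h16 : (16 : ℝ) ≤ t ^ 2 := by nlinarith
  have h64 : (64 : ℝ) ≤ t ^ 3 := by nlinarith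
  have h43 : t ^ 4 = t * t ^ 3 := by ring
  have h32 : t ^ 3 = t * t ^ 2 := by ring
  obtain ⟨V, hV⟩ : ∃ V : ℕ, V = ⌈t⌉₊ := ⟨_, rfl⟩
  have hVt : t ≤ V := by rw [hV]; exact Nat.le_ceil t
  have hVt2 : (V : ℝ) ≤ 2 * t := by
    have h1 := (Nat.ceil_lt_add_one htn).le
    rw [← hV] at h1
    linarith
  have hV1 : 1 ≤ V := by
    have h1 : (1 : ℝ) ≤ V := by linarith
    exact_mod_cast h1
  have hVa : V ≤ a := by
    have h1 : (k : ℝ) ≤ 2 * a := by exact_mod_cast hka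
    have h2 : (V : ℝ) ≤ a := by nlinarith
    exact_mod_cast h2
  have hL0 : 0 ≤ Real.log k := Real.log_natCast_nonneg k
  have hbL : Real.log b ≤ Real.log k := by
    rcases Nat.eq_zero_or_pos b with h0 | h0
    · rw [h0]; simpa using hL0
    · exact Real.log_le_log (by exact_mod_cast h0) (by exact_mod_cast hbk)
  have hlog : ∀ c : ℕ, c ≤ k → Real.log c ≤ Real.log k := by
    intro c hc
    rcases Nat.eq_zero_or_pos c with h0 | h0
    · rw [h0]; simpa using hL0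
    · exact Real.log_le_log (by exact_mod_cast h0) (by exact_mod_cast hc)
  have hdec : ∑ m ∈ Ioc a b, (ArithmeticFunction.vonMangoldt m : ℂ) * ee (x / m) =
      ∑ d ∈ Ioc 0 b, ∑ l ∈ Ioc (a / d) (b / d), vau_g1 V x d l
      - ∑ d ∈ Ioc 0 b, ∑ l ∈ Ioc (a / d) (b / d), vau_g2 V x d l
      + ∑ d ∈ Ioc 0 b, ∑ l ∈ Ioc (a / d) (b / d), vau_g3 V x d l := by
    rw [← vau_swap (vau_g1 V x), ← vau_swap (vau_g2 V x), ← vau_swap (vau_g3 V x), ← sum_sub_distrib,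
      ← sum_add_distrib]
    refine sum_congr rfl fun n hn => ?_
    rw [mem_Ioc] at hn
    exact vau_dec V n x hV1 (by omega)
  have hS1 : ‖∑ d ∈ Ioc 0 b, ∑ l ∈ Ioc (a / d) (b / d), vau_g1 V x d l‖ ≤
      (2 * C1 * k * E1 * Real.log k) * (1 + Real.log k) := by
    refine vau_harm _ b _ _ (by positivity) hbL fun d hd => ?_
    rw [mem_Ioc] at hd
    have hd1 : (0 : ℝ) < d := by exact_mod_cast hd.1
    by_cases hdV : d ≤ V
    · have hd3 : (d : ℝ) ≤ (k : ℝ) ^ (3 / 4 : ℝ) := by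
        have h1 : (d : ℝ) ≤ V := by exact_mod_cast hdV
        rw [ht3]
        nlinarith
      have h2 : ∑ l ∈ Ioc (a / d) (b / d), vau_g1 V x d l = ((ArithmeticFunction.moebius d : ℝ) : ℂ) *
          ∑ l ∈ Ioc (a / d) (b / d), (Real.log (l : ℝ) : ℂ) * ee (x / (d * l)) := by
        rw [mul_sum]
        refine sum_congr rfl fun l _ => ?_
        unfold vau_g1
        rw [if_pos hdV]
      have h3 := vau_log hLGA d a b x (C1 * (k / d) * E1) (Real.log k) hd.1 hab (by positivity)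
        (fun b' h1 h2 => hT d b' hd.1 hd3 h1 h2) (hlog _ ((Nat.div_le_self b d).trans hbk))
      rw [h2, norm_mul, Complex.norm_real, Real.norm_eq_abs]
      calc _ ≤ 1 * (2 * (C1 * (k / d) * E1) * Real.log k) :=
            mul_le_mul (vau_mu d) h3 (norm_nonneg _) (by norm_num)
        _ = (2 * C1 * k * E1 * Real.log k) * (1 / (d : ℝ)) := by ring
    · have h2 : ∑ l ∈ Ioc (a / d) (b / d), vau_g1 V x d l = 0 := by
        refine sum_eq_zero fun l _ => ?_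
        unfold vau_g1
        rw [if_neg hdV]
      rw [h2, norm_zero]
      positivity
  have hS2 : ‖∑ d ∈ Ioc 0 b, ∑ l ∈ Ioc (a / d) (b / d), vau_g2 V x d l‖ ≤
      (C1 * k * E1 * Real.log k) * (1 + Real.log k) := by
    refine vau_harm _ b _ _ (by positivity) hbL fun d hd => ?_
    rw [mem_Ioc] at hd
    have hd1 : (0 : ℝ) < d := by exact_mod_cast hd.1
    have h2 : ∑ l ∈ Ioc (a / d) (b / d), vau_g2 V x d l = (Pool.Agent.FI.cc V V d : ℂ) *
        ∑ l ∈ Ioc (a / d) (b / d), ee (x / (d * l)) := by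
      rw [mul_sum]
      rfl
    by_cases hdV : d ≤ V * V
    · have hd3 : (d : ℝ) ≤ (k : ℝ) ^ (3 / 4 : ℝ) := by
        have h1 : (d : ℝ) ≤ V * V := by exact_mod_cast hdV
        rw [ht3]
        nlinarith
      rw [h2, norm_mul, Complex.norm_real, Real.norm_eq_abs]
      calc _ ≤ Real.log k * (C1 * (k / d) * E1) :=
            mul_le_mul ((vau_cc V V d).trans (hlog d (hd.2.trans hbk))) (hT d b hd.1 hd3 hab le_rfl) (norm_nonneg _) hL0
        _ = (C1 * k * E1 * Real.log k) * (1 / (d : ℝ)) := by ring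
    · have h4 : V < d := by nlinarith
      have h3 := (Pool.Agent.FI.VGI V V d hV1 hV1 h4).2.2.2.2.2 (by omega)
      rw [h2, h3, Complex.ofReal_zero, zero_mul, norm_zero]
      positivity
  have hS3 : ‖∑ d ∈ Ioc 0 b, ∑ l ∈ Ioc (a / d) (b / d), vau_g3 V x d l‖ ≤
      2 * (1 + Real.log k) * (C2 * k * (1 + Real.log k) ^ B2 * E2) := by
    obtain ⟨F, hF⟩ : ∃ F : ℕ → ℂ, F = fun m => (ArithmeticFunction.vonMangoldt m : ℂ) *
      ∑ l ∈ Ioc (a / m) (b / m), (Pool.Agent.FI.al V l : ℂ) * ee (x / (m * l)) := ⟨_, rfl⟩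
    have h1 : ∑ d ∈ Ioc 0 b, ∑ l ∈ Ioc (a / d) (b / d), vau_g3 V x d l =
        ∑ m ∈ Ioc 0 b, (if V < m then F m else 0) := by
      refine sum_congr rfl fun d _ => ?_
      by_cases hdV : V < d
      · rw [if_pos hdV, hF]
        show ∑ l ∈ Ioc (a / d) (b / d), vau_g3 V x d l = (ArithmeticFunction.vonMangoldt d : ℂ) *
          ∑ l ∈ Ioc (a / d) (b / d), (Pool.Agent.FI.al V l : ℂ) * ee (x / (d * l))
        rw [mul_sum]
        refine sum_congr rfl fun l _ => ?_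
        unfold vau_g3
        rw [if_pos hdV]
      · rw [if_neg hdV]
        refine sum_eq_zero fun l _ => ?_
        unfold vau_g3
        rw [if_neg hdV]
    have h2 : ∀ m : ℕ, b / m ≤ V → F m = 0 := by
      intro m hm
      rw [hF]
      have h3 : ∑ l ∈ Ioc (a / m) (b / m), (Pool.Agent.FI.al V l : ℂ) * ee (x / (m * l)) = 0 := by
        refine sum_eq_zero fun l hl => ?_
        rw [mem_Ioc] at hl
        rw [vau_al0 V l (hl.2.trans hm), Complex.ofReal_zero, zero_mul]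
      show (ArithmeticFunction.vonMangoldt m : ℂ) *
        ∑ l ∈ Ioc (a / m) (b / m), (Pool.Agent.FI.al V l : ℂ) * ee (x / (m * l)) = 0
      rw [h3, mul_zero]
    have h3 : ∀ m : ℕ, b < m → F m = 0 := by
      intro m hm
      apply h2
      rw [Nat.div_eq_of_lt hm]
      exact Nat.zero_le _
    have hP : 0 ≤ C2 * k * (1 + Real.log k) ^ B2 * E2 := by positivity
    have h4 : b ≤ V * 2 ^ (Nat.log 2 k + 1) := by
      have h5 : k < 2 ^ (Nat.log 2 k + 1) := Nat.lt_pow_succ_log_self (by norm_num) k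
      nlinarith
    rw [h1]
    refine (vau_blocks F V b (Nat.log 2 k + 1) (C2 * k * (1 + Real.log k) ^ B2 * E2) h4 h3 ?_).trans
      (mul_le_mul_of_nonneg_right (vau_I k (by omega)) hP)
    intro i _
    obtain ⟨M, hM⟩ : ∃ M : ℕ, M = V * 2 ^ i := ⟨_, rfl⟩
    rw [← hM]
    have hVM : V ≤ M := by rw [hM]; exact Nat.le_mul_of_pos_right V (by positivity)
    have hVMr : (V : ℝ) ≤ M := by exact_mod_cast hVM
    by_cases hM3 : (M : ℝ) ≤ (k : ℝ) ^ (3 / 4 : ℝ)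
    · have h5 := hII M (fun m => ArithmeticFunction.vonMangoldt m) (fun l => Pool.Agent.FI.al V l)
        (by rw [← ht]; linarith) hM3 ?_ (vau_al V)
      · rw [hF]
        exact h5
      · intro m hm
        rw [mem_Ioc] at hm
        rw [abs_of_nonneg ArithmeticFunction.vonMangoldt_nonneg]
        refine ArithmeticFunction.vonMangoldt_le_log.trans ?_
        have hm0 : (0 : ℝ) < m := by
          have : 0 < m := by omega
          exact_mod_cast this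
        have hmk : (m : ℝ) ≤ (k : ℝ) ^ 2 := by
          have h6 : (m : ℝ) ≤ 2 * M := by exact_mod_cast hm.2
          have h7 : (M : ℝ) ≤ k := by
            rw [ht4]
            rw [ht3] at hM3
            nlinarith
          nlinarith
        have h8 := Real.log_le_log hm0 hmk
        rw [Real.log_pow] at h8
        exact_mod_cast h8
    · have h5 : ∑ m ∈ Ioc M (2 * M), F m = 0 := by
        refine sum_eq_zero fun m hm => h2 m ?_
        rw [mem_Ioc] at hm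
        have hm1 : (M : ℝ) ≤ m := by exact_mod_cast hm.1.le
        push Not at hM3
        rw [ht3] at hM3
        have h6 : (b : ℝ) < V * m := by
          have h7 : (b : ℝ) ≤ k := by exact_mod_cast hbk
          have h8 : t ^ 3 < m := by linarith
          have h9 : t * t ^ 3 < V * m := by nlinarith
          rw [ht4] at h7
          linarith
        have h7 : b < V * m := by exact_mod_cast h6
        exact (Nat.div_lt_iff_lt_mul (by omega)).2 h7 |>.le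
      rw [h5, norm_zero]
      exact hP
  rw [hdec]
  calc _ ≤ ‖∑ d ∈ Ioc 0 b, ∑ l ∈ Ioc (a / d) (b / d), vau_g1 V x d l
        - ∑ d ∈ Ioc 0 b, ∑ l ∈ Ioc (a / d) (b / d), vau_g2 V x d l‖ +
        ‖∑ d ∈ Ioc 0 b, ∑ l ∈ Ioc (a / d) (b / d), vau_g3 V x d l‖ := norm_add_le _ _
    _ ≤ (‖∑ d ∈ Ioc 0 b, ∑ l ∈ Ioc (a / d) (b / d), vau_g1 V x d l‖ +
        ‖∑ d ∈ Ioc 0 b, ∑ l ∈ Ioc (a / d) (b / d), vau_g2 V x d l‖) +
        ‖∑ d ∈ Ioc 0 b, ∑ l ∈ Ioc (a / d) (b / d), vau_g3 V x d l‖ := by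
          have := norm_sub_le (∑ d ∈ Ioc 0 b, ∑ l ∈ Ioc (a / d) (b / d), vau_g1 V x d l)
            (∑ d ∈ Ioc 0 b, ∑ l ∈ Ioc (a / d) (b / d), vau_g2 V x d l)
          linarith
    _ ≤ _ := by nlinarith [hS1, hS2, hS3]

private theorem vau_small (k a b : ℕ) (x δ : ℝ) (hk2 : 2 ≤ k) (hk : k < 256) (hab : a ≤ b) (hbk : b ≤ k)
    (hδ : 0 < δ) (hδ4 : δ ≤ 1 / 4) :
    ‖∑ m ∈ Ioc a b, (ArithmeticFunction.vonMangoldt m : ℂ) * ee (x / m)‖ ≤
      4 * k * (1 + Real.log k) * (k : ℝ) ^ (-δ) := by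
  have hk0 : (0 : ℝ) < k := by
    have : 0 < k := by omega
    exact_mod_cast this
  have hk1 : (1 : ℝ) ≤ k := by
    have : 1 ≤ k := by omega
    exact_mod_cast this
  have hL0 : 0 ≤ Real.log k := Real.log_natCast_nonneg k
  have h1 : ‖∑ m ∈ Ioc a b, (ArithmeticFunction.vonMangoldt m : ℂ) * ee (x / m)‖ ≤ k * Real.log k := by
    refine (norm_sum_le _ _).trans ?_
    have h2 : ∀ m ∈ Ioc a b, ‖(ArithmeticFunction.vonMangoldt m : ℂ) * ee (x / m)‖ ≤ Real.log k := by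
      intro m hm
      rw [mem_Ioc] at hm
      rw [norm_mul, vau_ee, mul_one, Complex.norm_real, Real.norm_eq_abs,
        abs_of_nonneg ArithmeticFunction.vonMangoldt_nonneg]
      refine ArithmeticFunction.vonMangoldt_le_log.trans ?_
      have hm0 : 0 < m := by omega
      exact Real.log_le_log (by exact_mod_cast hm0) (by exact_mod_cast hm.2.trans hbk)
    refine (sum_le_sum h2).trans ?_
    rw [sum_const, Nat.card_Ioc, nsmul_eq_mul]
    refine mul_le_mul_of_nonneg_right ?_ hL0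
    exact_mod_cast (Nat.sub_le b a).trans hbk
  have h2 : (1 / 4 : ℝ) ≤ (k : ℝ) ^ (-δ) := by
    rw [Real.rpow_neg hk0.le, ← one_div]
    refine one_div_le_one_div_of_le (Real.rpow_pos_of_pos hk0 _) ?_
    have h3 : (k : ℝ) ^ δ ≤ (k : ℝ) ^ (1 / 4 : ℝ) := Real.rpow_le_rpow_of_exponent_le hk1 hδ4
    have h4 : (k : ℝ) ^ (1 / 4 : ℝ) ≤ ((4 : ℝ) ^ (4 : ℝ)) ^ (1 / 4 : ℝ) := by
      refine Real.rpow_le_rpow hk0.le ?_ (by norm_num)
      have h5 : (k : ℝ) ≤ 256 := by exact_mod_cast hk.le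
      refine h5.trans ?_
      norm_num
    rw [← Real.rpow_mul (by norm_num)] at h4
    norm_num at h4 h3 ⊢
    linarith
  calc _ ≤ k * Real.log k := h1
    _ ≤ k * (1 + Real.log k) := mul_le_mul_of_nonneg_left (by linarith) hk0.le
    _ = 4 * k * (1 + Real.log k) * (1 / 4) := by ring
    _ ≤ _ := mul_le_mul_of_nonneg_left h2 (by positivity)

theorem VAU (hTID : TID_stmt) (hLGA : LGA_stmt) (hTII : TII_stmt) : VAU_stmt := by
  intro A
  obtain ⟨δ1, C1, hδ1, hδ14, hC1, h1⟩ := hTID A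
  obtain ⟨δ2, C2, B2, hδ2, hδ24, hC2, h2⟩ := hTII A
  refine ⟨min δ1 δ2, 3 * C1 + 2 * C2 + 4, B2 + 2, lt_min hδ1 hδ2, by linarith, ?_⟩
  intro k a b x hk2 hab hbk hka hkx hxA
  have hk0 : (0 : ℝ) < k := by
    have : 0 < k := by omega
    exact_mod_cast this
  have hk1 : (1 : ℝ) ≤ k := by
    have : 1 ≤ k := by omega
    exact_mod_cast this
  have hx0 : 0 < x := by linarith
  have hL0 : 0 ≤ Real.log k := Real.log_natCast_nonneg k
  have hL1 : 1 ≤ 1 + Real.log k := by linarith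
  obtain ⟨L, hL⟩ : ∃ L : ℝ, L = 1 + Real.log k := ⟨_, rfl⟩
  obtain ⟨E, hE⟩ : ∃ E : ℝ, E = (k / x) ^ (1 / 2 : ℝ) + (k : ℝ) ^ (-min δ1 δ2) := ⟨_, rfl⟩
  have hq0 : 0 < k / x := div_pos hk0 hx0
  have hq1 : k / x ≤ 1 := (div_le_one hx0).2 hkx
  have hr0 : 0 ≤ (k / x) ^ (1 / 2 : ℝ) := Real.rpow_nonneg hq0.le _
  have hE0 : 0 ≤ E := by
    rw [hE]
    have := Real.rpow_nonneg hk0.le (-min δ1 δ2)
    linarith
  have hqr : k / x ≤ (k / x) ^ (1 / 2 : ℝ) := by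
    have h3 := Real.rpow_le_rpow_of_exponent_ge hq0 hq1 (show (1 / 2 : ℝ) ≤ 1 by norm_num)
    rwa [Real.rpow_one] at h3
  have hp1 : (k : ℝ) ^ (-δ1) ≤ (k : ℝ) ^ (-min δ1 δ2) :=
    Real.rpow_le_rpow_of_exponent_le hk1 (neg_le_neg (min_le_left _ _))
  have hp2 : (k : ℝ) ^ (-δ2) ≤ (k : ℝ) ^ (-min δ1 δ2) :=
    Real.rpow_le_rpow_of_exponent_le hk1 (neg_le_neg (min_le_right _ _))
  have hE1 : k / x + (k : ℝ) ^ (-δ1) ≤ E := by rw [hE]; linarith
  have hE2 : (k / x) ^ (1 / 2 : ℝ) + (k : ℝ) ^ (-δ2) ≤ E := by rw [hE]; linarith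
  rw [← hE, ← hL]
  have hLL : 1 ≤ L := by rw [hL]; exact hL1
  have hLB1 : L * L ≤ L ^ (B2 + 2) := by
    have h3 : L ^ 2 ≤ L ^ (B2 + 2) := pow_le_pow_right₀ hLL (by omega)
    nlinarith
  have hLB2 : L * L ^ B2 ≤ L ^ (B2 + 2) := by
    rw [← pow_succ']
    exact pow_le_pow_right₀ hLL (by omega)
  have hLB3 : L ≤ L ^ (B2 + 2) := by
    have h3 : L ^ 1 ≤ L ^ (B2 + 2) := pow_le_pow_right₀ hLL (by omega)
    rwa [pow_one] at h3
  have hkE : 0 ≤ k * E := mul_nonneg hk0.le hE0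
  have hLn : 0 ≤ L ^ (B2 + 2) := by positivity
  rcases Nat.lt_or_ge k 256 with hs | hb
  · have h3 := vau_small k a b x (min δ1 δ2) hk2 hs hab hbk (lt_min hδ1 hδ2) ((min_le_left _ _).trans hδ14)
    rw [← hL] at h3
    refine h3.trans ?_
    have h4 : (k : ℝ) ^ (-min δ1 δ2) ≤ E := by rw [hE]; linarith
    calc 4 * k * L * (k : ℝ) ^ (-min δ1 δ2) ≤ 4 * k * L ^ (B2 + 2) * E := by
          refine mul_le_mul ?_ h4 (Real.rpow_nonneg hk0.le _) (by positivity)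
          exact mul_le_mul_of_nonneg_left hLB3 (by positivity)
      _ = 4 * (k * L ^ (B2 + 2) * E) := by ring
      _ ≤ (3 * C1 + 2 * C2 + 4) * (k * L ^ (B2 + 2) * E) :=
          mul_le_mul_of_nonneg_right (by linarith) (by positivity)
      _ = (3 * C1 + 2 * C2 + 4) * k * L ^ (B2 + 2) * E := by ring
  · have h3 := vau_big hLGA k a b x E E C1 C2 B2 hb hab hbk hka hE0 hC1 hC2 hE0 ?_ ?_
    · rw [← hL] at h3
      refine h3.trans ?_
      have h5 : Real.log k ≤ L := by rw [hL]; linarith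
      calc 3 * C1 * k * E * Real.log k * L + 2 * L * (C2 * k * L ^ B2 * E)
          ≤ 3 * C1 * k * E * L * L + 2 * L * (C2 * k * L ^ B2 * E) := by
            have h6 : 3 * C1 * k * E * Real.log k * L ≤ 3 * C1 * k * E * L * L := by
              refine mul_le_mul_of_nonneg_right (mul_le_mul_of_nonneg_left h5 ?_) (by linarith)
              positivity
            linarith
        _ = (3 * C1 * (k * E)) * (L * L) + (2 * C2 * (k * E)) * (L * L ^ B2) := by ring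
        _ ≤ (3 * C1 * (k * E)) * L ^ (B2 + 2) + (2 * C2 * (k * E)) * L ^ (B2 + 2) := by
            have h6 := mul_le_mul_of_nonneg_left hLB1 (show 0 ≤ 3 * C1 * (k * E) by positivity)
            have h7 := mul_le_mul_of_nonneg_left hLB2 (show 0 ≤ 2 * C2 * (k * E) by positivity)
            linarith
        _ ≤ (3 * C1 + 2 * C2 + 4) * k * L ^ (B2 + 2) * E := by
            have h8 : 0 ≤ k * E * L ^ (B2 + 2) := mul_nonneg hkE hLn
            nlinarith
    · intro d b' hd hd3 hab' hbb'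
      have h4 := h1 k d a b' x hd hd3 hab' (hbb'.trans hbk) hka hkx hxA
      refine h4.trans (mul_le_mul_of_nonneg_left hE1 ?_)
      positivity
    · intro M α β hM1 hM2 hα hβ
      have h4 := h2 k M a b x α β hk2 hM1 hM2 hab hbk hkx hxA hα hβ
      refine h4.trans (mul_le_mul_of_nonneg_left hE2 ?_)
      positivity

end Pool.Agent.DFO
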